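import Pool.Agent.Work.MP_2f0ece_helper84.Final

/-!
The Fermat cubic threefold in characteristic `p = 2 mod 3`, `p` odd, has a dominant rational map
from projective space whose degree is exactly `p`.
-/

set_option autoImplicit false

namespace Pool.Agent.Work.MP_2f0ece_old.FermatOddDegree

open MvPolynomial Pool.Agent.Work.CubicOdd

universe u

/-- For every odd prime `p` with `p = 2 mod 3` and every algebraically closed field `K` of
characteristic `p`, the Fermat cubic `x_0^3 + x_1^3 + x_2^3 + x_3^3 + x_4^3` is smooth and has a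
dominant rational map from `P^3` of degree exactly `p`. -/
theorem result (p : ℕ) (hp : p.Prime) (h2 : p ≠ 2) (h : p % 3 = 2) (K : Type u) [Field K]
    [IsAlgClosed K] [CharP K p] :
    (∀ x : Fin 5 → K, x ≠ 0 →
      ¬ (eval x (∑ i : Fin 5, X i ^ 3 : MvPolynomial (Fin 5) K) = 0 ∧
        ∀ i : Fin 5, eval x (pderiv i (∑ i : Fin 5, X i ^ 3 : MvPolynomial (Fin 5) K)) = 0)) ∧
    ∃ g : Fin 4 → FractionRing (MvPolynomial (Fin 3) K),
      RingHom.ker (MvPolynomial.aeval (R := K) g) =
        Ideal.span {MvPolynomial.aeval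
          (Fin.cons (1 : MvPolynomial (Fin 4) K) MvPolynomial.X :
            Fin 5 → MvPolynomial (Fin 4) K) (∑ i : Fin 5, X i ^ 3 : MvPolynomial (Fin 5) K)} ∧
      Module.finrank (IntermediateField.adjoin K (Set.range g))
        (FractionRing (MvPolynomial (Fin 3) K)) = p ∧
      Odd (Module.finrank (IntermediateField.adjoin K (Set.range g))
        (FractionRing (MvPolynomial (Fin 3) K))) := by
  have h3 : (3 : K) ≠ 0 := by
    exact_mod_cast prime_cast_ne (K := K) hp Nat.prime_three (by rintro rfl; omega)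
  refine ⟨fermat_smooth h3, ?_⟩
  obtain ⟨g, g1, g2⟩ := fermat_final p hp h K
  exact ⟨g, g1, g2, by rw [g2]; exact odd_of_prime hp h2⟩

end Pool.Agent.Work.MP_2f0ece_old.FermatOddDegree
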