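import Pool.Agent.Work.MP_2f0ece_helper84.Final

/-!
The Klein cubic threefold in characteristic `p = 2, 6, 7, 8 mod 11`, `p` odd, has a dominant
rational map from projective space whose degree is exactly `p`.
-/

set_option autoImplicit false

namespace Pool.Agent.Work.MP_2f0ece_old.KleinOddDegree

open MvPolynomial Pool.Agent.Work.CubicOdd

universe u

/-- For every odd prime `p` which is a primitive root modulo `11` and every field `K` of
characteristic `p`, the Klein cubic is smooth and has a dominant rational map from `P^3` of degree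
exactly `p`. -/
theorem result (p : ℕ) (hp : p.Prime) (h2 : p ≠ 2)
    (h : p % 11 = 2 ∨ p % 11 = 6 ∨ p % 11 = 7 ∨ p % 11 = 8) (K : Type u) [Field K] [CharP K p]
    (F : MvPolynomial (Fin 5) K)
    (hF : F = X 0 ^ 2 * X 1 + X 1 ^ 2 * X 2 + X 2 ^ 2 * X 3 + X 3 ^ 2 * X 4 + X 4 ^ 2 * X 0) :
    (∀ x : Fin 5 → K, x ≠ 0 → ¬ (eval x F = 0 ∧ ∀ i : Fin 5, eval x (pderiv i F) = 0)) ∧
    ∃ g : Fin 4 → FractionRing (MvPolynomial (Fin 3) K),
      RingHom.ker (MvPolynomial.aeval (R := K) g) =
        Ideal.span {MvPolynomial.aeval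
          (Fin.cons (1 : MvPolynomial (Fin 4) K) MvPolynomial.X :
            Fin 5 → MvPolynomial (Fin 4) K) F} ∧
      Module.finrank (IntermediateField.adjoin K (Set.range g))
        (FractionRing (MvPolynomial (Fin 3) K)) = p ∧
      Odd (Module.finrank (IntermediateField.adjoin K (Set.range g))
        (FractionRing (MvPolynomial (Fin 3) K))) := by
  have e : F = kl K := hF
  rw [e]
  have h33 : (33 : K) ≠ 0 := by
    have h3 : (3 : K) ≠ 0 := by
      exact_mod_cast prime_cast_ne (K := K) hp Nat.prime_three (by rintro rfl; omega)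
    have h11 : (11 : K) ≠ 0 := by
      exact_mod_cast prime_cast_ne (K := K) hp (by norm_num : Nat.Prime 11) (by rintro rfl; omega)
    have : (33 : K) = 3 * 11 := by norm_num
    rw [this]; exact mul_ne_zero h3 h11
  refine ⟨klein_smooth h33, ?_⟩
  obtain ⟨g, g1, g2⟩ := klein_final p hp h2 h K
  exact ⟨g, g1, g2, by rw [g2]; exact odd_of_prime hp h2⟩

end Pool.Agent.Work.MP_2f0ece_old.KleinOddDegree
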