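import Pool.Agent.Work.MP_2f0ece_helper84.Final

/-!
The cubic threefold `x_0^3 + x_1^2 x_2 + x_2^2 x_3 + x_3^2 x_4 + x_4^2 x_1 = 0` in characteristic
`p = 2, 8, 11 mod 15`, `p` odd, has a dominant rational map from projective space of degree `p`.
-/

set_option autoImplicit false

namespace Pool.Agent.Work.MP_2f0ece_old.LoopOddDegree

open MvPolynomial Pool.Agent.Work.CubicOdd

universe u

/-- The cubic threefold `x_0^3 + x_1^2 x_2 + x_2^2 x_3 + x_3^2 x_4 + x_4^2 x_1 = 0` for odd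
primes `p = 2, 8, 11 mod 15`. -/
theorem result (p : ℕ) (hp : p.Prime) (h2 : p ≠ 2)
    (h : p % 15 = 2 ∨ p % 15 = 8 ∨ p % 15 = 11) (K : Type u) [Field K] [CharP K p]
    (F : MvPolynomial (Fin 5) K)
    (hF : F = X 0 ^ 3 + X 1 ^ 2 * X 2 + X 2 ^ 2 * X 3 + X 3 ^ 2 * X 4 + X 4 ^ 2 * X 1) :
    (∀ x : Fin 5 → K, x ≠ 0 → ¬ (eval x F = 0 ∧ ∀ i : Fin 5, eval x (pderiv i F) = 0)) ∧
    ∃ g : Fin 4 → FractionRing (MvPolynomial (Fin 3) K),
      RingHom.ker (MvPolynomial.aeval (R := K) g) =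
        Ideal.span {MvPolynomial.aeval
          (Fin.cons (1 : MvPolynomial (Fin 4) K) MvPolynomial.X :
            Fin 5 → MvPolynomial (Fin 4) K) F} ∧
      Module.finrank (IntermediateField.adjoin K (Set.range g))
        (FractionRing (MvPolynomial (Fin 3) K)) = p ∧
      Odd (Module.finrank (IntermediateField.adjoin K (Set.range g))
        (FractionRing (MvPolynomial (Fin 3) K))) := by
  have e : F = lf K := hF
  rw [e]
  have h3 : (3 : K) ≠ 0 := by
    exact_mod_cast prime_cast_ne (K := K) hp Nat.prime_three (by rintro rfl; omega)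
  have h5 : (5 : K) ≠ 0 := by
    exact_mod_cast prime_cast_ne (K := K) hp Nat.prime_five (by rintro rfl; omega)
  refine ⟨lf_smooth h3 h5, ?_⟩
  obtain ⟨g, g1, g2⟩ := loop4_final p hp h K
  exact ⟨g, g1, g2, by rw [g2]; exact odd_of_prime hp h2⟩

end Pool.Agent.Work.MP_2f0ece_old.LoopOddDegree
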